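import Pool.Agent.H15.FOS.Targets

/-!
# MP_70ba79_ag, first order equations: DPN, the degree over the field of the plane curve, helper70
-/

set_option autoImplicit false

open MvPolynomial SC Pool.Agent.H27.LV
open Pool.Agent.H84.SM (dp cr dt)
open Pool.Agent.H92.SF Pool.Agent.H3.SF Pool.Agent.H15.FOS

namespace Pool.Agent.H70.FOS

theorem fos_DPN (hDPL : T_DPL) (hIMG : T_IMG) : T_DPN := by
  intro k F K _ _ _ _ _ _ u δ hind hrank hδ φ x hx hprm t
  obtain ⟨b, c, p, hc, hc0, ht⟩ := hIMG k F K u φ hprm t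
  obtain ⟨r, hmon, hdeg, heval⟩ := hDPL k F u δ hind hrank hδ (b : F) b.2
  have hmem : ∀ i, Itg k u (u i) := fun i => by
    have h := ((aeval u : MvPolynomial (Fin 3) k →ₐ[k] F) :
      MvPolynomial (Fin 3) k →+* F).isIntegralElem_map (x := X i)
    simpa [Itg] using h
  obtain ⟨ul, hul⟩ : ∃ ul : Fin 3 → Bb k u, ∀ i, (ul i : F) = u i := ⟨fun i => ⟨u i, hmem i⟩,
    fun i => rfl⟩
  have hv : ∀ q : MvPolynomial (Fin 3) k, ((aeval ul q : Bb k u) : F) = aeval u q := by
    intro q
    have h1 : (fun i => (Bb k u).val (ul i)) = u := funext hul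
    have h2 := MvPolynomial.comp_aeval_apply ul (Bb k u).val q
    rw [h1] at h2
    exact h2
  have hφ : ∀ q : MvPolynomial (Fin 3) k, φ (aeval ul q) = aeval x q := by
    intro q
    have h1 : (fun i => φ (ul i)) = x := funext fun i => hx i _ (hul i)
    have h2 := MvPolynomial.comp_aeval_apply ul φ q
    rw [h1] at h2
    exact h2
  have hcx : φ c = aeval x p := by
    rw [← hφ]
    congr 1
    apply Subtype.ext
    rw [hc, hv]
  have hrel : ∑ i ∈ Finset.range (δ + 1), aeval ul (r.coeff i) * b ^ i = 0 := by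
    apply Subtype.ext
    rw [Polynomial.eval₂_eq_sum_range' _ (Nat.lt_succ_of_le hdeg)] at heval
    rw [AddSubmonoidClass.coe_finsetSum]
    refine Eq.trans (Finset.sum_congr rfl fun i _ => ?_) heval
    rw [MulMemClass.coe_mul, SubmonoidClass.coe_pow, hv]
    rfl
  have hmemL : ∀ q : MvPolynomial (Fin 3) k,
      aeval x q ∈ IntermediateField.adjoin k (Set.range x) := by
    intro q
    refine IntermediateField.algebra_adjoin_le_adjoin k (Set.range x) ?_
    rw [Algebra.adjoin_range_eq_range_aeval]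
    exact ⟨q, rfl⟩
  refine ⟨fun i => aeval x (r.coeff i) * (φ c) ^ i, fun i => ?_, ⟨r.natDegree, hdeg, ?_⟩, ?_⟩
  · rw [hcx]
    exact mul_mem (hmemL _) (pow_mem (hmemL _) i)
  · have h1 : r.coeff r.natDegree = 1 := hmon
    show (aeval x) (r.coeff r.natDegree) * φ c ^ r.natDegree ≠ 0
    rw [h1, map_one, one_mul]
    exact pow_ne_zero _ hc0
  · have h1 := congrArg φ hrel
    rw [map_sum, map_zero] at h1
    refine Eq.trans (Finset.sum_congr rfl fun i _ => ?_) h1
    rw [map_mul, map_pow, hφ, ← ht, mul_pow]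
    ring

end Pool.Agent.H70.FOS
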